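import Mathlib

/-!
# Test-free PDL does not have the Craig interpolation property

Let `φ` say that a state with `r` can be reached by `a`-steps and that a set `q` of states containing the
present one has the property that every state of `q` without `r` has `p` and only `a`-successors in `q`; let `ψ`
say that every set `s` of states which contains all states with `r` and all states with `p` which
have an `a`-successor in `s`, contains the present state. Then `φ → ψ` is valid, both formulas are test-free,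
and `⟨(p?; a)*⟩ r` is an interpolant with a test. There is no test-free interpolant: on the infinite word
`(p^N r p^N' ∅)^ω` a test-free formula `θ` in the letters `p`, `r` and the program `a` has the same value at the
first positions of the two blocks of letters `p`, if `N`, `N'` are large and the period is prime to certain
numbers which depend on `θ` only: a test-free program denotes a set of numbers of steps which is bounded
or contains an infinite arithmetic progression. But `φ` can be satisfied at the one position, and `ψ` can be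
falsified at the other.
-/

set_option autoImplicit false

namespace Pool.Agent.Results.MP_7a64d7_lc.NoCraigInterpolation

universe u

mutual
/-- Formulas of full PDL; the proposition letters are the natural numbers. -/
inductive Form : Type
  | var : ℕ → Form
  | bot : Form
  | neg : Form → Form
  | and : Form → Form → Form
  | box : Prog → Form → Form
/-- Programs of full PDL; the atomic programs are the natural numbers. -/
inductive Prog : Type
  | atom : ℕ → Prog
  | seq : Prog → Prog → Prog
  | union : Prog → Prog → Prog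
  | star : Prog → Prog
  | test : Form → Prog
end

/-- Kripke models with the set `W` of states. -/
structure Model (W : Type u) where
  /-- the relations of the atomic programs -/
  rel : ℕ → W → W → Prop
  /-- the valuation -/
  val : ℕ → W → Prop

mutual
/-- Truth of a formula at a state. -/
def Sat {W : Type u} (M : Model W) : Form → W → Prop
  | .var p => fun w => M.val p w
  | .bot => fun _ => False
  | .neg φ => fun w => ¬ Sat M φ w
  | .and φ ψ => fun w => Sat M φ w ∧ Sat M ψ w
  | .box α φ => fun w => ∀ v, Step M α w v → Sat M φ v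
/-- The relation of a program. -/
def Step {W : Type u} (M : Model W) : Prog → W → W → Prop
  | .atom a => M.rel a
  | .seq α β => fun w v => ∃ x, Step M α w x ∧ Step M β x v
  | .union α β => fun w v => Step M α w v ∨ Step M β w v
  | .star α => Relation.ReflTransGen (Step M α)
  | .test τ => fun w v => w = v ∧ Sat M τ w
end

mutual
/-- The vocabulary of a formula: `Sum.inl p` for the proposition letters `p`, `Sum.inr a` for the atomic
programs `a` which occur in it. -/
def voc : Form → Set (ℕ ⊕ ℕ)
  | .var p => {Sum.inl p}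
  | .bot => ∅
  | .neg φ => voc φ
  | .and φ ψ => voc φ ∪ voc ψ
  | .box α φ => vocP α ∪ voc φ
/-- The vocabulary of a program. -/
def vocP : Prog → Set (ℕ ⊕ ℕ)
  | .atom a => {Sum.inr a}
  | .seq α β => vocP α ∪ vocP β
  | .union α β => vocP α ∪ vocP β
  | .star α => vocP α
  | .test τ => voc τ
end

mutual
/-- No test occurs in the formula. -/
def TestFree : Form → Prop
  | .var _ => True
  | .bot => True
  | .neg φ => TestFree φ
  | .and φ ψ => TestFree φ ∧ TestFree ψ
  | .box α φ => TestFreeP α ∧ TestFree φ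
/-- No test occurs in the program. -/
def TestFreeP : Prog → Prop
  | .atom _ => True
  | .seq α β => TestFreeP α ∧ TestFreeP β
  | .union α β => TestFreeP α ∧ TestFreeP β
  | .star α => TestFreeP α
  | .test _ => False
end

/-- The implication `φ → ψ`. -/
def imp (φ ψ : Form) : Form := .neg (.and φ (.neg ψ))

/-- A formula is valid if it is true at every state of every model. -/
def Valid (φ : Form) : Prop := ∀ (W : Type u) (M : Model W) (w : W), Sat M φ w

/-- `θ` is an interpolant of `φ` and `ψ`. -/
def Interpolant (φ ψ θ : Form) : Prop :=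
  voc θ ⊆ voc φ ∩ voc ψ ∧ Valid.{u} (imp φ θ) ∧ Valid.{u} (imp θ ψ)

/-- The Craig interpolation property of a fragment `L`. -/
def Craig (L : Form → Prop) : Prop :=
  ∀ φ ψ : Form, L φ → L ψ → Valid.{u} (imp φ ψ) → ∃ θ, L θ ∧ Interpolant.{u} φ ψ θ

theorem sat_imp {W : Type u} (M : Model W) (φ ψ : Form) (w : W) :
    Sat M (imp φ ψ) w ↔ (Sat M φ w → Sat M ψ w) := by
  simp only [imp, Sat]
  tauto

/-! ### The two formulas -/

/-- the letter `p` -/
abbrev fp : Form := .var 0
/-- the letter `r` -/
abbrev fr : Form := .var 1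
/-- the letter `q` -/
abbrev fq : Form := .var 2
/-- the letter `s` -/
abbrev fs : Form := .var 3
/-- the program `a` -/
abbrev pa : Prog := .atom 0

/-- the diamond -/
def dia (α : Prog) (φ : Form) : Form := .neg (.box α (.neg φ))

/-- `⟨a*⟩ r ∧ q ∧ [a*] ((q ∧ ¬ r) → (p ∧ [a] q))` -/
def phi : Form :=
  .and (dia (.star pa) fr) (.and fq (.box (.star pa) (imp (.and fq (.neg fr)) (.and fp (.box pa fq)))))

/-- `[a*] ((r → s) ∧ ((p ∧ ⟨a⟩ s) → s)) → s` -/
def psi : Form :=
  imp (.box (.star pa) (.and (imp fr fs) (imp (.and fp (dia pa fs)) fs))) fs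

/-- `⟨(p?; a)*⟩ r` -/
def theta : Form := dia (.star (.seq (.test fp) pa)) fr

theorem sat_dia {W : Type u} (M : Model W) (α : Prog) (φ : Form) (w : W) :
    Sat M (dia α φ) w ↔ ∃ v, Step M α w v ∧ Sat M φ v := by
  simp only [dia, Sat]
  push Not
  rfl

theorem sat_phi {W : Type u} (M : Model W) (w : W) :
    Sat M phi w ↔ (∃ v, Relation.ReflTransGen (M.rel 0) w v ∧ M.val 1 v) ∧ M.val 2 w ∧
      ∀ v, Relation.ReflTransGen (M.rel 0) w v → (M.val 2 v ∧ ¬ M.val 1 v) →
        M.val 0 v ∧ ∀ x, M.rel 0 v x → M.val 2 x := by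
  simp only [phi, Sat, Step, sat_dia, sat_imp]

theorem sat_psi {W : Type u} (M : Model W) (w : W) :
    Sat M psi w ↔ ((∀ v, Relation.ReflTransGen (M.rel 0) w v → (M.val 1 v → M.val 3 v) ∧
      ((M.val 0 v ∧ ∃ x, M.rel 0 v x ∧ M.val 3 x) → M.val 3 v)) → M.val 3 w) := by
  simp only [psi, Sat, Step, sat_dia, sat_imp]

theorem sat_theta {W : Type u} (M : Model W) (w : W) :
    Sat M theta w ↔ ∃ v, Relation.ReflTransGen (Step M (.seq (.test fp) pa)) w v ∧ M.val 1 v := by
  rw [theta, sat_dia]
  rfl

theorem valid_phi_theta : Valid.{u} (imp phi theta) := by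
  intro W M w
  rw [sat_imp, sat_phi, sat_theta]
  rintro ⟨⟨v, hv, hr⟩, hq, hinv⟩
  induction hv using Relation.ReflTransGen.head_induction_on with
  | refl => exact ⟨v, .refl, hr⟩
  | head h1 h2 ih =>
    rename_i a c
    by_cases hra : M.val 1 a
    · exact ⟨a, .refl, hra⟩
    · obtain ⟨hp, hq'⟩ := hinv a .refl ⟨hq, hra⟩
      obtain ⟨v', hv', hr'⟩ := ih (hq' c h1) (fun z hz => hinv z (.head h1 hz))
      refine ⟨v', .head ⟨a, ⟨rfl, ?_⟩, h1⟩ hv', hr'⟩
      exact hp

theorem valid_theta_psi : Valid.{u} (imp theta psi) := by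
  intro W M w
  rw [sat_imp, sat_theta, sat_psi]
  rintro ⟨v, hv, hr⟩
  induction hv using Relation.ReflTransGen.head_induction_on with
  | refl => intro h; exact (h v .refl).1 hr
  | head h1 h2 ih =>
    rename_i a c
    intro h
    obtain ⟨x, ⟨rfl, hx⟩, hxc⟩ := h1
    have hc : M.val 3 c := ih (fun z hz => h z (.head hxc hz))
    exact (h a .refl).2 ⟨hx, c, hxc, hc⟩

/-! ### Test-free programs on words -/

/-- The set of the numbers of steps of a test-free program with one atomic program. -/
def den : Prog → Set ℕ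
  | .atom _ => {1}
  | .seq α β => {n | ∃ a ∈ den α, ∃ b ∈ den β, a + b = n}
  | .union α β => den α ∪ den β
  | .star α => AddSubmonoid.closure (den α)
  | .test _ => ∅

/-- The vocabulary `{p, r, a}`. -/
def V : Set (ℕ ⊕ ℕ) := {Sum.inl 0, Sum.inl 1, Sum.inr 0}

theorem step_iff {W : Type u} (M : Model W) (e : W ≃ ℕ) (hM : ∀ x y, M.rel 0 x y ↔ e y = e x + 1) :
    (α : Prog) → TestFreeP α → vocP α ⊆ V → ∀ x y, Step M α x y ↔ ∃ n ∈ den α, e y = e x + n
  | .atom a, _, hv, x, y => by
    have ha : a = 0 := by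
      have := hv (show Sum.inr a ∈ vocP (.atom a) by simp [vocP])
      simpa [V] using this
    subst ha
    simp [Step, den, hM]
  | .seq α β, ht, hv, x, y => by
    have h1 := step_iff M e hM α ht.1 (fun z hz => hv (by simp only [vocP]; exact Or.inl hz))
    have h2 := step_iff M e hM β ht.2 (fun z hz => hv (by simp only [vocP]; exact Or.inr hz))
    simp only [Step, den, h1, h2]
    constructor
    · rintro ⟨z, ⟨n, hn, hz⟩, m, hm, hy⟩
      exact ⟨n + m, ⟨n, hn, m, hm, rfl⟩, by omega⟩
    · rintro ⟨_, ⟨n, hn, m, hm, rfl⟩, hy⟩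
      exact ⟨e.symm (e x + n), ⟨n, hn, by simp⟩, m, hm, by simp; omega⟩
  | .union α β, ht, hv, x, y => by
    have h1 := step_iff M e hM α ht.1 (fun z hz => hv (by simp only [vocP]; exact Or.inl hz))
    have h2 := step_iff M e hM β ht.2 (fun z hz => hv (by simp only [vocP]; exact Or.inr hz))
    simp only [Step, den, h1, h2]
    constructor
    · rintro (⟨n, hn, hy⟩ | ⟨n, hn, hy⟩)
      · exact ⟨n, Or.inl hn, hy⟩
      · exact ⟨n, Or.inr hn, hy⟩
    · rintro ⟨n, hn | hn, hy⟩
      · exact Or.inl ⟨n, hn, hy⟩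
      · exact Or.inr ⟨n, hn, hy⟩
  | .star α, ht, hv, x, y => by
    have h1 := step_iff M e hM α ht (fun z hz => hv (by simp only [vocP]; exact hz))
    simp only [Step, den]
    constructor
    · intro h
      induction h with
      | refl => exact ⟨0, zero_mem _, rfl⟩
      | tail _ h ih =>
        obtain ⟨n, hn, hy⟩ := ih
        obtain ⟨m, hm, hy'⟩ := (h1 _ _).1 h
        exact ⟨n + m, add_mem hn (AddSubmonoid.subset_closure hm), by omega⟩
    · rintro ⟨n, hn, hy⟩
      have key : ∀ n ∈ AddSubmonoid.closure (den α), ∀ x y : W, e y = e x + n →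
          Relation.ReflTransGen (Step M α) x y := by
        intro n hn
        induction hn using AddSubmonoid.closure_induction with
        | mem m hm => intro x y h; exact .single ((h1 _ _).2 ⟨m, hm, h⟩)
        | zero => intro x y h; rw [e.injective (show e y = e x by simpa using h)]
        | add a b _ _ iha ihb =>
          intro x y h
          exact (iha x (e.symm (e x + a)) (by simp)).trans (ihb _ y (by simp; omega))
      exact key n hn x y hy
  | .test _, ht, _, _, _ => ht.elim

/-- The set of numbers of steps is bounded or contains an infinite arithmetic progression. -/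
theorem den_cases : (α : Prog) → (∃ D, ∀ n ∈ den α, n ≤ D) ∨ ∃ c b, 0 < b ∧ ∀ n, c + b * n ∈ den α
  | .atom _ => Or.inl ⟨1, by simp [den]⟩
  | .seq α β => by
    by_cases hα : (den α).Nonempty
    · by_cases hβ : (den β).Nonempty
      · obtain ⟨a, ha⟩ := hα
        obtain ⟨b, hb⟩ := hβ
        rcases den_cases α with ⟨D, hD⟩ | ⟨c, k, hk, h⟩
        · rcases den_cases β with ⟨E, hE⟩ | ⟨c, k, hk, h⟩
          · left
            refine ⟨D + E, ?_⟩
            rintro n ⟨x, hx, y, hy, rfl⟩
            exact Nat.add_le_add (hD x hx) (hE y hy)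
          · right
            exact ⟨a + c, k, hk, fun n => ⟨a, ha, _, h n, by ring⟩⟩
        · right
          exact ⟨c + b, k, hk, fun n => ⟨_, h n, b, hb, by ring⟩⟩
      · left
        refine ⟨0, ?_⟩
        rintro n ⟨x, hx, y, hy, rfl⟩
        exact (hβ ⟨y, hy⟩).elim
    · left
      refine ⟨0, ?_⟩
      rintro n ⟨x, hx, y, hy, rfl⟩
      exact (hα ⟨x, hx⟩).elim
  | .union α β => by
    rcases den_cases α with ⟨D, hD⟩ | ⟨c, k, hk, h⟩
    · rcases den_cases β with ⟨E, hE⟩ | ⟨c, k, hk, h⟩
      · left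
        refine ⟨D + E, ?_⟩
        rintro n (hn | hn)
        · exact (hD n hn).trans (Nat.le_add_right _ _)
        · exact (hE n hn).trans (Nat.le_add_left _ _)
      · right
        exact ⟨c, k, hk, fun n => Or.inr (h n)⟩
    · right
      exact ⟨c, k, hk, fun n => Or.inl (h n)⟩
  | .star α => by
    by_cases h : ∃ b ∈ den α, 0 < b
    · obtain ⟨b, hb, hb0⟩ := h
      right
      refine ⟨0, b, hb0, fun n => ?_⟩
      have := nsmul_mem (show b ∈ AddSubmonoid.closure (den α) from AddSubmonoid.subset_closure hb) n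
      simp only [den, SetLike.mem_coe, zero_add]
      simpa [mul_comm] using this
    · left
      push Not at h
      refine ⟨0, fun n hn => ?_⟩
      simp only [den, SetLike.mem_coe] at hn
      induction hn using AddSubmonoid.closure_induction with
      | mem m hm => exact h m hm
      | zero => exact le_rfl
      | add a b _ _ iha ihb => omega
  | .test _ => Or.inl ⟨0, by simp [den]⟩

/-- Two positions have the same letters `p`, `r` up to the distance `K`. -/
def Same {W : Type u} (M : Model W) (e : W ≃ ℕ) (K : ℕ) (x y : W) : Prop :=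
  ∀ i ≤ K, (M.val 0 (e.symm (e x + i)) ↔ M.val 0 (e.symm (e y + i))) ∧
    (M.val 1 (e.symm (e x + i)) ↔ M.val 1 (e.symm (e y + i)))

/-- The word has the period `L`. -/
def Periodic {W : Type u} (M : Model W) (e : W ≃ ℕ) (L : ℕ) : Prop :=
  ∀ i, (M.val 0 (e.symm (i + L)) ↔ M.val 0 (e.symm i)) ∧ (M.val 1 (e.symm (i + L)) ↔ M.val 1 (e.symm i))

theorem Same.symm {W : Type u} {M : Model W} {e : W ≃ ℕ} {K : ℕ} {x y : W} (h : Same M e K x y) :
    Same M e K y x := fun i hi => ⟨(h i hi).1.symm, (h i hi).2.symm⟩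

theorem Same.mono {W : Type u} {M : Model W} {e : W ≃ ℕ} {K K' : ℕ} {x y : W} (h : Same M e K x y)
    (hK : K' ≤ K) : Same M e K' x y := fun i hi => h i (hi.trans hK)

theorem Periodic.mod {W : Type u} {M : Model W} {e : W ≃ ℕ} {L : ℕ} (h : Periodic M e L) (i j : ℕ) :
    (M.val 0 (e.symm (i + L * j)) ↔ M.val 0 (e.symm i)) ∧
      (M.val 1 (e.symm (i + L * j)) ↔ M.val 1 (e.symm i)) := by
  induction j with
  | zero => simp
  | succ j ih =>
    have := h (i + L * j)
    rw [show i + L * (j + 1) = i + L * j + L by ring]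
    exact ⟨this.1.trans ih.1, this.2.trans ih.2⟩

theorem Periodic.same {W : Type u} {M : Model W} {e : W ≃ ℕ} {L : ℕ} (h : Periodic M e L) (K : ℕ) {x y : W}
    (hxy : e x ≡ e y [MOD L]) : Same M e K x y := by
  intro i _
  have key : ∀ a b : ℕ, a ≤ b → a ≡ b [MOD L] → (M.val 0 (e.symm (a + i)) ↔ M.val 0 (e.symm (b + i))) ∧
      (M.val 1 (e.symm (a + i)) ↔ M.val 1 (e.symm (b + i))) := by
    intro a b hab hm
    obtain ⟨j, hj⟩ := (Nat.modEq_iff_dvd' hab).1 hm
    have hb : b + i = a + i + L * j := by omega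
    rw [hb]
    have := h.mod (a + i) j
    exact ⟨this.1.symm, this.2.symm⟩
  rcases le_total (e x) (e y) with hle | hle
  · exact key _ _ hle hxy
  · have := key _ _ hle hxy.symm
    exact ⟨this.1.symm, this.2.symm⟩

theorem exists_progression {L b : ℕ} (hL : 0 < L) (hb : Nat.Coprime L b) (t z : ℕ) :
    ∃ n, t + b * n ≡ z [MOD L] := by
  have : NeZero L := ⟨hL.ne'⟩
  refine ⟨(((z : ZMod L) - t) * (b : ZMod L)⁻¹).val, ?_⟩
  rw [← ZMod.natCast_eq_natCast_iff]
  push_cast
  rw [ZMod.natCast_zmod_val]
  have : (b : ZMod L) * (b : ZMod L)⁻¹ = 1 := ZMod.coe_mul_inv_eq_one b hb.symm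
  linear_combination ((z : ZMod L) - t) * this

/-- **The main lemma.** A test-free formula with the vocabulary `{p, r, a}` sees only boundedly many letters
on words with suitable periods. -/
theorem lookahead : (θ : Form) → TestFree θ → voc θ ⊆ V → ∃ K B : ℕ, 0 < B ∧
    ∀ (W : Type u) (M : Model W) (e : W ≃ ℕ) (L : ℕ), 0 < L → Nat.Coprime L B →
      (∀ x y, M.rel 0 x y ↔ e y = e x + 1) → Periodic M e L →
      ∀ x y, Same M e K x y → (Sat M θ x ↔ Sat M θ y)
  | .var p, _, hv => by
    refine ⟨0, 1, one_pos, fun W M e L _ _ _ _ x y h => ?_⟩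
    have hp : p = 0 ∨ p = 1 := by
      have := hv (show Sum.inl p ∈ voc (.var p) by simp [voc])
      simpa [V] using this
    have := h 0 le_rfl
    simp only [add_zero, Equiv.symm_apply_apply] at this
    simp only [Sat]
    rcases hp with rfl | rfl
    · exact this.1
    · exact this.2
  | .bot, _, _ => ⟨0, 1, one_pos, fun W M e L _ _ _ _ x y h => by simp only [Sat]⟩
  | .neg θ, ht, hv => by
    obtain ⟨K, B, hB, h⟩ := lookahead θ ht (fun z hz => hv (by simp only [voc]; exact hz))
    refine ⟨K, B, hB, fun W M e L h1 h2 h3 h4 x y h5 => ?_⟩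
    simp only [Sat]
    rw [h W M e L h1 h2 h3 h4 x y h5]
  | .and θ η, ht, hv => by
    obtain ⟨K, B, hB, h⟩ := lookahead θ ht.1 (fun z hz => hv (by simp only [voc]; exact Or.inl hz))
    obtain ⟨K', B', hB', h'⟩ := lookahead η ht.2 (fun z hz => hv (by simp only [voc]; exact Or.inr hz))
    refine ⟨K + K', B * B', Nat.mul_pos hB hB', fun W M e L h1 h2 h3 h4 x y h5 => ?_⟩
    simp only [Sat]
    rw [h W M e L h1 (Nat.Coprime.coprime_mul_right_right h2) h3 h4 x y (h5.mono (Nat.le_add_right _ _)),
      h' W M e L h1 (Nat.Coprime.coprime_mul_left_right h2) h3 h4 x y (h5.mono (Nat.le_add_left _ _))]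
  | .box α θ, ht, hv => by
    obtain ⟨K, B, hB, h⟩ := lookahead θ ht.2 (fun z hz => hv (by simp only [voc]; exact Or.inr hz))
    have hα : vocP α ⊆ V := fun z hz => hv (by simp only [voc]; exact Or.inl hz)
    rcases den_cases α with ⟨D, hD⟩ | ⟨c, b, hb, hc⟩
    · refine ⟨K + D, B, hB, fun W M e L h1 h2 h3 h4 x y h5 => ?_⟩
      have main : ∀ x y, Same M e (K + D) x y → Sat M (.box α θ) x → Sat M (.box α θ) y := by
        intro x y hs hx v hv
        obtain ⟨n, hn, hvn⟩ := (step_iff M e h3 α ht.1 hα y v).1 hv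
        have h6 : Sat M θ (e.symm (e x + n)) :=
          hx _ ((step_iff M e h3 α ht.1 hα _ _).2 ⟨n, hn, by simp⟩)
        refine (h W M e L h1 h2 h3 h4 _ _ ?_).1 h6
        intro i hi
        have := hs (n + i) (by have := hD n hn; omega)
        simp only [Equiv.apply_symm_apply, hvn]
        simpa [add_assoc] using this
      exact ⟨main x y h5, main y x h5.symm⟩
    · refine ⟨K, B * b, Nat.mul_pos hB hb, fun W M e L h1 h2 h3 h4 x y h5 => ?_⟩
      have h2B := Nat.Coprime.coprime_mul_right_right h2
      have h2b := Nat.Coprime.coprime_mul_left_right h2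
      have main : ∀ x, Sat M (.box α θ) x ↔ ∀ z, Sat M θ z := by
        intro x
        constructor
        · intro hx z
          obtain ⟨n, hn⟩ := exists_progression h1 h2b (e x + c) (e z)
          have h6 : Sat M θ (e.symm (e x + (c + b * n))) :=
            hx _ ((step_iff M e h3 α ht.1 hα _ _).2 ⟨_, hc n, by simp⟩)
          refine (h W M e L h1 h2B h3 h4 _ _ (h4.same K ?_)).1 h6
          simpa [add_assoc] using hn
        · intro hz v _
          exact hz v
      rw [main x, main y]

/-! ### The word -/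

/-- The word `(p^(K+1) r p^… ∅)^ω` with period `L`, where `q` is the first block with the letter `r`, and `s`
consists of the positions from `L` on. -/
def word (K L : ℕ) : Model (ULift.{u} ℕ) where
  rel _ x y := y.down = x.down + 1
  val j x := match j with
    | 0 => x.down % L ≠ K + 1 ∧ x.down % L ≠ L - 1
    | 1 => x.down % L = K + 1
    | 2 => x.down ≤ K + 1
    | _ => L ≤ x.down

theorem word_phi (K L : ℕ) (hL : 2 * K + 7 ≤ L) : Sat (word.{u} K L) phi ⟨0⟩ := by
  rw [sat_phi]
  have hpath : ∀ n : ℕ, Relation.ReflTransGen ((word.{u} K L).rel 0) ⟨0⟩ ⟨n⟩ := by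
    intro n
    induction n with
    | zero => exact .refl
    | succ n ih => exact .tail ih rfl
  refine ⟨⟨⟨K + 1⟩, hpath _, ?_⟩, ?_, ?_⟩
  · show (K + 1) % L = K + 1
    exact Nat.mod_eq_of_lt (by omega)
  · show 0 ≤ K + 1
    omega
  · rintro ⟨v⟩ _ ⟨hq, hr⟩
    have hq' : v ≤ K + 1 := hq
    have hr' : ¬ v % L = K + 1 := hr
    have hv : v % L = v := Nat.mod_eq_of_lt (by omega)
    rw [hv] at hr'
    refine ⟨?_, ?_⟩
    · show v % L ≠ K + 1 ∧ v % L ≠ L - 1
      rw [hv]
      omega
    · rintro ⟨x⟩ hx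
      have hx' : x = v + 1 := hx
      show x ≤ K + 1
      omega

theorem word_psi (K L : ℕ) (hL : 2 * K + 7 ≤ L) : ¬ Sat (word.{u} K L) psi ⟨K + 2⟩ := by
  rw [sat_psi]
  intro h
  have hge : ∀ v, Relation.ReflTransGen ((word.{u} K L).rel 0) ⟨K + 2⟩ v → K + 2 ≤ v.down := by
    intro v hv
    induction hv with
    | refl => exact le_rfl
    | tail _ hbc ih =>
      have : _ = _ + 1 := hbc
      omega
  have h1 : L ≤ K + 2 := h (by
    rintro ⟨v⟩ hv
    have hv' : K + 2 ≤ v := hge _ hv
    refine ⟨?_, ?_⟩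
    · intro hr
      have hr' : v % L = K + 1 := hr
      show L ≤ v
      by_contra hlt
      rw [Nat.mod_eq_of_lt (by omega)] at hr'
      omega
    · rintro ⟨hp, ⟨x⟩, hx, hs⟩
      have hp' : v % L ≠ K + 1 ∧ v % L ≠ L - 1 := hp
      have hx' : x = v + 1 := hx
      have hs' : L ≤ x := hs
      show L ≤ v
      by_contra hlt
      rw [Nat.mod_eq_of_lt (by omega)] at hp'
      omega)
  omega

theorem no_interpolant (θ : Form) (ht : TestFree θ) (hv : voc θ ⊆ V) :
    ¬ (Valid.{u} (imp phi θ) ∧ Valid.{u} (imp θ psi)) := by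
  rintro ⟨h1, h2⟩
  obtain ⟨K, B, hB, h⟩ := lookahead.{u} θ ht hv
  set L := 1 + B * (2 * K + 6) with hLdef
  have hL : 2 * K + 7 ≤ L := by nlinarith
  have hper : Periodic (word.{u} K L) Equiv.ulift L := by
    intro i
    refine ⟨?_, ?_⟩
    · show ((i + L) % L ≠ K + 1 ∧ (i + L) % L ≠ L - 1) ↔ (i % L ≠ K + 1 ∧ i % L ≠ L - 1)
      rw [Nat.add_mod_right]
    · show ((i + L) % L = K + 1) ↔ (i % L = K + 1)
      rw [Nat.add_mod_right]
  have hcop : Nat.Coprime L B := by
    rw [hLdef]
    simp
  have hsame : Same (word.{u} K L) Equiv.ulift K ⟨0⟩ ⟨K + 2⟩ := by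
    intro i hi
    refine ⟨?_, ?_⟩
    · show ((0 + i) % L ≠ K + 1 ∧ (0 + i) % L ≠ L - 1) ↔ ((K + 2 + i) % L ≠ K + 1 ∧ (K + 2 + i) % L ≠ L - 1)
      rw [Nat.mod_eq_of_lt (show 0 + i < L by omega), Nat.mod_eq_of_lt (show K + 2 + i < L by omega)]
      omega
    · show ((0 + i) % L = K + 1) ↔ ((K + 2 + i) % L = K + 1)
      rw [Nat.mod_eq_of_lt (show 0 + i < L by omega), Nat.mod_eq_of_lt (show K + 2 + i < L by omega)]
      omega
  have h3 := h _ (word.{u} K L) Equiv.ulift L (by omega) hcop (fun x y => Iff.rfl) hper _ _ hsame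
  have h4 := (sat_imp _ _ _ _).1 (h1 _ (word.{u} K L) ⟨0⟩) (word_phi K L hL)
  exact word_psi K L hL ((sat_imp _ _ _ _).1 (h2 _ (word.{u} K L) ⟨K + 2⟩) (h3.1 h4))

theorem voc_phi : voc phi = {Sum.inl 0, Sum.inl 1, Sum.inl 2, Sum.inr 0} := by
  ext z
  simp [phi, imp, dia, voc, vocP]
  tauto

theorem voc_psi : voc psi = {Sum.inl 0, Sum.inl 1, Sum.inl 3, Sum.inr 0} := by
  ext z
  simp [psi, imp, dia, voc, vocP]
  tauto

theorem voc_theta : voc theta = {Sum.inl 0, Sum.inl 1, Sum.inr 0} := by
  ext z
  simp [theta, dia, voc, vocP]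
  tauto

theorem voc_inter : voc phi ∩ voc psi = V := by
  rw [voc_phi, voc_psi]
  ext z
  simp only [V, Set.mem_inter_iff, Set.mem_insert_iff, Set.mem_singleton_iff]
  rcases z with z | z <;> simp; omega

/-- **Test-free PDL does not have the Craig interpolation property.** There are test-free formulas
`φ`, `ψ` with `φ → ψ` valid, for which no test-free formula is an interpolant, while there is an interpolant
with a test. -/
theorem result : ¬ Craig.{u} TestFree ∧
    ∃ φ ψ : Form, TestFree φ ∧ TestFree ψ ∧ Valid.{u} (imp φ ψ) ∧ (∃ θ, Interpolant.{u} φ ψ θ) ∧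
      ∀ θ, TestFree θ → ¬ Interpolant.{u} φ ψ θ := by
  have hφ : TestFree phi := by simp [phi, imp, dia, TestFree, TestFreeP]
  have hψ : TestFree psi := by simp [psi, imp, dia, TestFree, TestFreeP]
  have hno : ∀ θ, TestFree θ → ¬ Interpolant.{u} phi psi θ := by
    rintro θ ht ⟨hv, h⟩
    rw [voc_inter] at hv
    exact no_interpolant θ ht hv h
  have hval : Valid.{u} (imp phi psi) := by
    intro W M w
    rw [sat_imp]
    intro h
    exact (sat_imp _ _ _ _).1 (valid_theta_psi W M w) ((sat_imp _ _ _ _).1 (valid_phi_theta W M w) h)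
  refine ⟨fun h => ?_, phi, psi, hφ, hψ, hval, ⟨theta, ?_, valid_phi_theta, valid_theta_psi⟩, hno⟩
  · obtain ⟨θ, ht, hθ⟩ := h phi psi hφ hψ hval
    exact hno θ ht hθ
  · rw [voc_inter, voc_theta]
    rfl

end Pool.Agent.Results.MP_7a64d7_lc.NoCraigInterpolation
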